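import Pool.Agent.H.MP_c53602_gt.A

open Set Filter Topology Complex Pool.Agent.H.MP_c53602_gt
open scoped Real ComplexConjugate

namespace Pool.Agent.Results.MP_c53602_gt.Holds

/-- `L(t)`: the length of the arc `γ|[a,t]`. -/
noncomputable def len (γ : ℝ → ℂ) (a t : ℝ) : ℝ := (eVariationOn γ (Icc a t)).toReal

/-- `S(t)`: parameters of support points of the chord `[γ a, γ t]`. -/
def supp (γ : ℝ → ℂ) (a b t : ℝ) : Set ℝ :=
  {τ ∈ Ioc a t | γ a = γ t ∨ IsLocalExtrOn (fun s => det (γ t - γ a) (γ s)) (Icc a b) τ}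

lemma var_le (γ : ℝ → ℂ) (f : ℝ → ℝ) (p q : ℝ) (hpq : p ≤ q)
    (h : ∀ x y, p ≤ x → x ≤ y → y ≤ q → ‖γ y - γ x‖ ≤ f y - f x) :
    (eVariationOn γ (Icc p q)).toReal ≤ f q - f p := by
  have m : MonotoneOn f (Icc p q) := fun x hx y hy k =>
    sub_nonneg.1 ((norm_nonneg _).trans (h x y hx.1 k hy.2))
  have := m.eVariationOn_le (left_mem_Icc.2 hpq) (right_mem_Icc.2 hpq)
  rw [inter_self] at this
  refine ENNReal.toReal_le_of_le_ofReal (sub_nonneg.2 (m (left_mem_Icc.2 hpq) (right_mem_Icc.2 hpq)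
    hpq)) (le_trans (iSup_mono fun u => Finset.sum_le_sum fun i _ => ?_) this)
  rw [edist_dist, edist_dist, dist_eq_norm]
  exact ENNReal.ofReal_le_ofReal ((h _ _ (u.2.2.2 i).1 (u.2.2.1 (Nat.le_succ i))
    (u.2.2.2 _).2).trans (le_abs_self _))

theorem result (γ : ℝ → ℂ) (a b : ℝ) (hab : a < b) (hc : ContinuousOn γ (Icc a b))
    (hr : BoundedVariationOn γ (Icc a b)) (hn : ∀ δ > 0, ∃ t ∈ Icc a b, t ≤ a + δ ∧ γ t ≠ γ a) :
    1 / Real.exp 1 ≤ limsup (fun t => sSup (len γ a '' supp γ a b t) / len γ a t) (𝓝[>] a) := by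
  obtain ⟨L, hL⟩ : ∃ L, L = len γ a := ⟨_, rfl⟩
  have fin : ∀ x y, a ≤ x → y ≤ b → eVariationOn γ (Icc x y) ≠ ⊤ := fun x y h k =>
    hr.mono (Icc_subset_Icc h k)
  have add : ∀ x y, a ≤ x → x ≤ y → y ≤ b → L y - L x = (eVariationOn γ (Icc x y)).toReal := by
    intro x y h k l
    have := eVariationOn.Icc_add_Icc γ (s := univ) h k trivial
    simp only [univ_inter] at this
    simp only [hL, len, ← this, ENNReal.toReal_add (fin a x le_rfl (k.trans l)) (fin x y h l)]
    ring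
  have ch : ∀ x y, a ≤ x → x ≤ y → y ≤ b → ‖γ y - γ x‖ ≤ L y - L x := fun x y h k l => by
    rw [add x y h k l, ← dist_eq_norm, dist_edist]
    exact ENNReal.toReal_mono (fin x y h l)
      (eVariationOn.edist_le _ (right_mem_Icc.2 k) (left_mem_Icc.2 k))
  have mo : ∀ x y, a ≤ x → x ≤ y → y ≤ b → L x ≤ L y := fun x y h k l =>
    sub_nonneg.1 ((norm_nonneg _).trans (ch x y h k l))
  have L0 : L a = 0 := by simp [hL, len]
  have Lp : ∀ t, a < t → t ≤ b → 0 < L t := fun t h k => by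
    obtain ⟨x, hx, l, n⟩ := hn (t - a) (by linarith)
    linarith [ch a x le_rfl hx.1 hx.2, norm_pos_iff.2 (sub_ne_zero.2 n), mo x t hx.1 (by linarith) k]
  have cL : ContinuousOn L (Icc a b) := fun x hx => by
    have t1 := (ENNReal.tendsto_toReal ENNReal.zero_ne_top).comp
      (hr.tendsto_eVariationOn_Icc_zero_left ((hc x hx).mono inter_subset_left))
    have t2 := (ENNReal.tendsto_toReal ENNReal.zero_ne_top).comp
      (hr.tendsto_eVariationOn_Icc_zero_right x ((hc x hx).mono inter_subset_left))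
    refine tendsto_iff_dist_tendsto_zero.2 (squeeze_zero' (Eventually.of_forall fun _ => dist_nonneg)
      (eventually_mem_nhdsWithin.mono fun y hy => ?_) (by simpa using t1.add t2))
    rw [Real.dist_eq]
    rcases le_total x y with k | k
    · rw [add x y hx.1 k hy.2, abs_of_nonneg ENNReal.toReal_nonneg,
        inter_eq_right.2 (Icc_subset_Icc hx.1 hy.2)]
      exact le_add_of_nonneg_left ENNReal.toReal_nonneg
    · rw [abs_sub_comm, add y x hy.1 k hx.2, abs_of_nonneg ENNReal.toReal_nonneg,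
        inter_eq_right.2 (Icc_subset_Icc hy.1 hx.2)]
      exact le_add_of_nonneg_right ENNReal.toReal_nonneg
  have bd : ∀ t, t ≤ b → ∀ y ∈ L '' supp γ a b t, y ≤ L t := by
    rintro t h _ ⟨x, hx, rfl⟩
    exact mo x t hx.1.1.le hx.1.2 h
  have ev : ∀ᶠ t in 𝓝[>] a, t ∈ Ioo a b := Ioo_mem_nhdsGT hab
  rw [← hL]
  by_contra! H
  obtain ⟨q, q1, q2⟩ := exists_between (max_lt H (by positivity : 0 < 1 / Real.exp 1))
  rw [max_lt_iff] at q1
  have E := (eventually_lt_of_limsup_lt q1.1 ⟨1, eventually_map.2 (ev.mono fun t ht =>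
    (div_le_one (Lp t ht.1 ht.2.le)).2 (Real.sSup_le (bd t ht.2.le) (Lp t ht.1 ht.2.le).le))⟩).and ev
  obtain ⟨u, hu, E⟩ := (mem_nhdsGT_iff_exists_Ioc_subset).1 E
  have ub : u < b := (E ⟨hu, le_rfl⟩).2.2
  have ns : ∀ t ∈ Ioc a u, ∀ x ∈ supp γ a b t, L x < q * L t := fun t ht x hx => by
    have := (E ht).1
    rw [div_lt_iff₀ (Lp t ht.1 (by linarith [ht.2]))] at this
    exact (le_csSup ⟨_, bd t (by linarith [ht.2])⟩ ⟨x, hx, rfl⟩).trans_lt this
  have Λ : 1 < -Real.log q := by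
    have := Real.log_lt_log q1.2 q2
    rw [one_div, Real.log_inv, Real.log_exp] at this
    linarith
  obtain ⟨m, hm⟩ := exists_nat_gt (2 / (-Real.log q - 1))
  have m0 : (0 : ℝ) < m := lt_trans (div_pos two_pos (by linarith)) hm
  rw [div_lt_iff₀ (by linarith)] at hm
  obtain ⟨l, hl⟩ : ∃ l : ℝ, l * (m + 2) = -Real.log q := ⟨_, div_mul_cancel₀ _ (by positivity)⟩
  have l0 : 0 < l := by nlinarith
  have l1 : 1 < m * l := by nlinarith
  have B0 := Lp u hu ub.le
  have : ∀ j : ℕ, ∃ t ∈ Icc a u, L t = L u * Real.exp (-l * j) := fun j =>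
    intermediate_value_Icc (le_of_lt hu) (cL.mono (Icc_subset_Icc_right ub.le))
      ⟨by rw [L0]; positivity, mul_le_of_le_one_right B0.le (Real.exp_le_one_iff.2 (by
        have : (0 : ℝ) ≤ j := j.cast_nonneg
        nlinarith))⟩
  choose τ h1 h2 using this
  have τa : ∀ j, a < τ j := fun j => (h1 j).1.lt_of_ne fun h => by
    have := h2 j
    rw [← h, L0] at this
    exact (by positivity : 0 < L u * Real.exp (-l * j)).ne this
  have τb : ∀ j, τ j ≤ b := fun j => (h1 j).2.trans ub.le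
  have hτ : StrictAnti τ := strictAnti_nat_of_succ_lt fun j => not_le.1 fun h => by
    have := mo _ _ (h1 j).1 h (τb _)
    rw [h2, h2, mul_le_mul_iff_right₀ B0, Real.exp_le_exp] at this
    push_cast at this; linarith
  have inj : ∀ i, ∀ t ∈ Icc (τ (i + 1)) (τ i),
      InjOn (fun s => det (γ t - γ a) (γ s - γ a)) (Icc (τ (i + m + 1)) t) := by
    intro i t ht
    have key : ∀ x ∈ Icc (τ (i + m + 1)) t, ∀ y ∈ Icc (τ (i + m + 1)) t, x < y →
        det (γ t - γ a) (γ x - γ a) ≠ det (γ t - γ a) (γ y - γ a) := fun x hx y hy k e => by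
      have ax := (τa _).trans_le hx.1
      have yb := hy.2.trans (ht.2.trans (τb i))
      obtain ⟨c, hc1, hc2⟩ := exists_isLocalExtr_Ioo (f := fun s => det (γ t - γ a) (γ s)) k (by
        have := hc.mono (Icc_subset_Icc ax.le yb)
        unfold det; fun_prop) (by simpa [det_sub] using e)
      have p := ns t ⟨(τa _).trans_le ht.1, ht.2.trans (h1 i).2⟩ c
        ⟨⟨ax.trans hc1.1, hc1.2.le.trans hy.2⟩, .inr (hc2.on _)⟩
      have p1 := mo _ c (h1 _).1 (hx.1.trans hc1.1.le) (hc1.2.le.trans yb)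
      have p2 := mul_le_mul_of_nonneg_left (mo t _ ((h1 _).1.trans ht.1) ht.2 (τb i)) q1.2.le
      have p3 := (p1.trans_lt p).trans_le p2
      rw [h2, h2, ← Real.exp_log q1.2, mul_left_comm, mul_lt_mul_iff_right₀ B0, ← Real.exp_add,
        Real.exp_lt_exp] at p3
      push_cast at p3; linarith
    intro x hx y hy e
    rcases lt_trichotomy x y with k | k | k
    exacts [absurd e (key x hx y hy k), k, absurd e.symm (key y hy x hx k)]
  have cΓ : ∀ j, ContinuousOn (fun s => γ s - γ a) (Icc (τ j) (τ 0)) := fun j =>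
    (hc.mono (Icc_subset_Icc (h1 j).1 (τb 0))).sub continuousOn_const
  have fin : ∀ Γ : ℝ → ℂ, (∀ x y, ‖Γ y - Γ x‖ = ‖γ y - γ x‖) → Γ a = 0 →
      (∀ i, StrictMonoOn (fun s => det (Γ (τ i)) (Γ s)) (Icc (τ (i + m + 1)) (τ i))) → False :=
    fun Γ e z h => core Γ τ (L u) l m B0 l1 hτ
      (fun j => by rw [← h2]; simpa [← e, z, L0] using ch a (τ j) le_rfl (h1 j).1 (τb j))
      (fun j => by rw [← h2, ← h2, e]; exact ch _ _ (h1 _).1 (hτ (by omega)).le (τb j))
      (fun j f k => by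
        rw [← h2, ← h2, add _ _ (h1 _).1 (hτ (by omega)).le (τb j)]
        exact var_le γ f _ _ (hτ (by omega)).le fun x y p q r => e x y ▸ k x y p q r) h
  have m1 : 1 ≤ m := Nat.cast_pos.1 m0
  have cj : ∀ u v, det (conj u) (conj v) = -det u v := fun u v => by simp [det]; ring
  rcases ContinuousOn.strictMonoOn_of_injOn_Icc' (hτ (by omega)).le (by
    have := hc.mono (Icc_subset_Icc (h1 (0 + m + 1)).1 (τb 0))
    unfold det; fun_prop) (inj 0 (τ 0) ⟨(hτ (by omega)).le, le_rfl⟩) with k | k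
  · exact fin (fun s => γ s - γ a) (by simp) (by simp) (chain _ τ m m1 hτ cΓ inj k)
  · refine fin (fun s => conj (γ s - γ a)) (fun x y => by rw [← map_sub, norm_conj]; simp) (by simp)
      (chain (fun s => conj (γ s - γ a)) τ m m1 hτ (fun j => continuous_conj.comp_continuousOn (cΓ j)) (fun i t ht x hx y hy e =>
        inj i t ht hx hy (by simpa only [cj, neg_inj] using e)) ?_)
    simpa only [cj] using k.neg

end Pool.Agent.Results.MP_c53602_gt.Holds
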